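import Mathlib
import Pool.Agent.Helper8.DilationLib

/-!
# Inhomogeneous Kronecker theorem for logarithms of primes

Adaptation of `Pool.Agent.Helper8.Dilation.kron_cos` (signs) to arbitrary phases (Bohr's proof: the
mean square of `∏ (1 + e (τ log p - θ p)) ^ k` over large times).
-/

namespace Pool.Agent.Helper8.Classify

open Finset Filter Topology Pool.Agent.Helper8.Dilation

/-- Mean square of a trigonometric polynomial with phases and distinct frequencies. -/
lemma mean_square_ph {J : Type*} (s : Finset J) (a ω ψ : J → ℝ)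
    (hω : ∀ j ∈ s, ∀ j' ∈ s, ω j = ω j' → j = j') (B T0 : ℝ)
    (hB : ∀ t, T0 ≤ t →
      (∑ j ∈ s, a j * Real.cos (ω j * t - ψ j)) ^ 2
        + (∑ j ∈ s, a j * Real.sin (ω j * t - ψ j)) ^ 2 ≤ B) :
    ∑ j ∈ s, a j ^ 2 ≤ B := by
  classical
  set C : ℝ := ∑ j ∈ s, ∑ j' ∈ s, |a j * a j'| * (2 / |ω j - ω j'|) with hC
  have hexp : ∀ t : ℝ,
      (∑ j ∈ s, a j * Real.cos (ω j * t - ψ j)) ^ 2 + (∑ j ∈ s, a j * Real.sin (ω j * t - ψ j)) ^ 2
        = ∑ j ∈ s, ∑ j' ∈ s, (a j * a j') * Real.cos ((ω j - ω j') * t - (ψ j - ψ j')) := by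
    intro t
    rw [sq, sq, Finset.sum_mul_sum, Finset.sum_mul_sum, ← Finset.sum_add_distrib]
    refine Finset.sum_congr rfl fun j _ => ?_
    rw [← Finset.sum_add_distrib]
    refine Finset.sum_congr rfl fun j' _ => ?_
    have : (ω j - ω j') * t - (ψ j - ψ j') = (ω j * t - ψ j) - (ω j' * t - ψ j') := by ring
    rw [this, Real.cos_sub (ω j * t - ψ j) (ω j' * t - ψ j')]; ring
  have hint : ∀ c d T : ℝ, c ≠ 0 →
      |∫ t in T0..(T0 + T), Real.cos (c * t - d)| ≤ 2 / |c| := by
    intro c d T hc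
    rw [intervalIntegral.integral_comp_mul_sub (fun x => Real.cos x) hc, integral_cos, smul_eq_mul,
      abs_mul, abs_inv]
    have h1 : |Real.sin (c * (T0 + T) - d) - Real.sin (c * T0 - d)| ≤ 2 := by
      have h2 := Real.abs_sin_le_one (c * (T0 + T) - d)
      have h3 := Real.abs_sin_le_one (c * T0 - d)
      have := abs_sub (Real.sin (c * (T0 + T) - d)) (Real.sin (c * T0 - d))
      linarith
    rw [div_eq_inv_mul]
    exact mul_le_mul_of_nonneg_left h1 (by positivity)
  have hmain : ∀ T : ℝ, 0 ≤ T → T * ∑ j ∈ s, a j ^ 2 - C ≤ T * B := by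
    intro T hT
    have hup : ∫ t in T0..(T0 + T),
        ((∑ j ∈ s, a j * Real.cos (ω j * t - ψ j)) ^ 2
          + (∑ j ∈ s, a j * Real.sin (ω j * t - ψ j)) ^ 2)
        ≤ ∫ t in T0..(T0 + T), B := by
      apply intervalIntegral.integral_mono_on (by linarith)
      · apply Continuous.intervalIntegrable
        fun_prop
      · exact intervalIntegrable_const
      · intro t ht
        exact hB t ht.1
    rw [intervalIntegral.integral_const, smul_eq_mul] at hup
    have hsimp : T0 + T - T0 = T := by ring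
    rw [hsimp] at hup
    refine le_trans ?_ hup
    simp_rw [hexp]
    rw [intervalIntegral.integral_finsetSum]
    · rw [hC, Finset.mul_sum, ← Finset.sum_sub_distrib]
      refine Finset.sum_le_sum fun j hj => ?_
      rw [intervalIntegral.integral_finsetSum]
      · have h0 : T * a j ^ 2 = ∑ j' ∈ s, (if j = j' then T * (a j * a j') else 0) := by
          rw [Finset.sum_ite_eq s j (fun j' => T * (a j * a j')), if_pos hj]; ring
        rw [h0, ← Finset.sum_sub_distrib]
        refine Finset.sum_le_sum fun j' hj' => ?_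
        rw [intervalIntegral.integral_const_mul]
        split_ifs with hjj
        · subst hjj
          simp
          linarith
        · have hne : ω j - ω j' ≠ 0 := by
            intro h
            exact hjj (hω j hj j' hj' (by linarith))
          have h1 := hint (ω j - ω j') (ψ j - ψ j') T hne
          have h2 : |(a j * a j') * ∫ t in T0..(T0 + T),
              Real.cos ((ω j - ω j') * t - (ψ j - ψ j'))|
              ≤ |a j * a j'| * (2 / |ω j - ω j'|) := by
            rw [abs_mul]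
            exact mul_le_mul_of_nonneg_left h1 (abs_nonneg _)
          have h3 := (abs_le.mp h2).1
          linarith
      · intro j' _
        apply Continuous.intervalIntegrable
        fun_prop
    · intro j _
      apply Continuous.intervalIntegrable
      fun_prop
  by_contra hcon
  push Not at hcon
  set d := ∑ j ∈ s, a j ^ 2 - B with hd
  have hd0 : 0 < d := by linarith
  have hC0 : 0 ≤ C := by
    rw [hC]
    exact Finset.sum_nonneg fun j _ => Finset.sum_nonneg fun j' _ => by positivity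
  have h1 := hmain ((C + 1) / d) (by positivity)
  have h2 : (C + 1) / d * d = C + 1 := by field_simp
  have h3 : (C + 1) / d * ∑ j ∈ s, a j ^ 2 - (C + 1) / d * B = (C + 1) / d * d := by rw [hd]; ring
  linarith

/-- Kronecker's theorem in cosine form with phases, with arbitrarily late times. -/
lemma kron_cos_ph {ι : Type*} [Fintype ι] [DecidableEq ι] (L : ι → ℝ)
    (hL : ∀ j j' : ι → ℕ, ∑ p, (j p : ℝ) * L p = ∑ p, (j' p : ℝ) * L p → j = j')
    (φ : ι → ℝ) (κ : ℝ) (hκ : 0 < κ) (hκ1 : κ ≤ 1) (T0 : ℝ) :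
    ∃ t, T0 ≤ t ∧ ∀ p, 1 - κ ≤ Real.cos (L p * t - φ p) := by
  classical
  by_contra hcon
  push Not at hcon
  set r := Fintype.card ι with hr
  -- the key inequality for every `k`
  have key : ∀ k : ℕ, (1 : ℝ) ≤ ((k : ℝ) + 1) ^ r * (1 - κ / 2) ^ k := by
    intro k
    set J : Finset (ι → ℕ) := Fintype.piFinset (fun _ => Finset.range (k + 1)) with hJ
    set a : (ι → ℕ) → ℝ := fun j => ∏ p, (k.choose (j p) : ℝ) with ha
    set ω : (ι → ℕ) → ℝ := fun j => ∑ p, (j p : ℝ) * L p with hω
    set ψ : (ι → ℕ) → ℝ := fun j => ∑ p, (j p : ℝ) * φ p with hψ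
    have hprod : ∀ t : ℝ, ∏ p, (1 + Complex.exp ((L p * t - φ p : ℝ) * Complex.I)) ^ k
        = ∑ j ∈ J, (a j : ℂ) * Complex.exp ((ω j * t - ψ j : ℝ) * Complex.I) := by
      intro t
      have h1 : ∀ p : ι, (1 + Complex.exp ((L p * t - φ p : ℝ) * Complex.I)) ^ k
          = ∑ m ∈ Finset.range (k + 1), (k.choose m : ℂ) *
              Complex.exp ((m * (L p * t - φ p) : ℝ) * Complex.I) := by
        intro p
        rw [add_comm, add_pow]
        refine Finset.sum_congr rfl fun m _ => ?_
        rw [one_pow, mul_one, ← Complex.exp_nat_mul]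
        have : ((m : ℂ) * (((L p * t - φ p : ℝ) : ℂ) * Complex.I))
            = ((m * (L p * t - φ p) : ℝ) : ℂ) * Complex.I := by push_cast; ring
        rw [this]; ring
      simp_rw [h1]
      rw [Finset.prod_univ_sum]
      refine Finset.sum_congr rfl fun j _ => ?_
      rw [Finset.prod_mul_distrib, ← Complex.exp_sum]
      congr 1
      · rw [ha]; push_cast; rfl
      · congr 1
        rw [← Finset.sum_mul]
        congr 1
        rw [hω, hψ]
        push_cast
        rw [Finset.sum_mul, ← Finset.sum_sub_distrib]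
        refine Finset.sum_congr rfl fun p _ => ?_
        ring
    have hre : ∀ (x : ℝ), (Complex.exp ((x : ℝ) * Complex.I)).re = Real.cos x := fun x =>
      Complex.exp_ofReal_mul_I_re x
    have him : ∀ (x : ℝ), (Complex.exp ((x : ℝ) * Complex.I)).im = Real.sin x := fun x =>
      Complex.exp_ofReal_mul_I_im x
    have hns : ∀ t : ℝ, (∑ j ∈ J, a j * Real.cos (ω j * t - ψ j)) ^ 2
        + (∑ j ∈ J, a j * Real.sin (ω j * t - ψ j)) ^ 2
        = ∏ p, (2 + 2 * Real.cos (L p * t - φ p)) ^ k := by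
      intro t
      have h1 : Complex.normSq (∑ j ∈ J, (a j : ℂ) *
            Complex.exp ((ω j * t - ψ j : ℝ) * Complex.I))
          = (∑ j ∈ J, a j * Real.cos (ω j * t - ψ j)) ^ 2
            + (∑ j ∈ J, a j * Real.sin (ω j * t - ψ j)) ^ 2 := by
        rw [Complex.normSq_apply, Complex.re_sum, Complex.im_sum]
        simp_rw [Complex.re_ofReal_mul, Complex.im_ofReal_mul, hre, him]
        ring
      rw [← h1, ← hprod, map_prod]
      refine Finset.prod_congr rfl fun p _ => ?_
      rw [map_pow]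
      congr 1
      rw [Complex.normSq_apply]
      simp only [Complex.add_re, Complex.add_im, Complex.one_re, Complex.one_im, hre, him]
      have h3 := Real.sin_sq_add_cos_sq (L p * t - φ p)
      nlinarith [h3]
    have hcos : ∀ t p, -1 ≤ Real.cos (L p * t - φ p) ∧ Real.cos (L p * t - φ p) ≤ 1 := by
      intro t p
      exact ⟨Real.neg_one_le_cos _, Real.cos_le_one _⟩
    have hup : ∀ t, T0 ≤ t → ∏ p, (2 + 2 * Real.cos (L p * t - φ p)) ^ k
        ≤ (4 ^ r * (1 - κ / 2)) ^ k := by
      intro t ht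
      obtain ⟨p0, hp0⟩ := hcon t ht
      rw [Finset.prod_pow]
      apply pow_le_pow_left₀
      · exact Finset.prod_nonneg fun p _ => by linarith [(hcos t p).1]
      · rw [← Finset.mul_prod_erase Finset.univ _ (Finset.mem_univ p0)]
        have h1 : ∏ p ∈ Finset.univ.erase p0, (2 + 2 * Real.cos (L p * t - φ p))
            ≤ 4 ^ (r - 1) := by
          calc ∏ p ∈ Finset.univ.erase p0, (2 + 2 * Real.cos (L p * t - φ p))
              ≤ ∏ _p ∈ Finset.univ.erase p0, (4 : ℝ) :=
                Finset.prod_le_prod (fun p _ => by linarith [(hcos t p).1])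
                  (fun p _ => by linarith [(hcos t p).2])
            _ = 4 ^ (r - 1) := by
                rw [Finset.prod_const, Finset.card_erase_of_mem (Finset.mem_univ p0),
                  Finset.card_univ]
        have h2 : 2 + 2 * Real.cos (L p0 * t - φ p0) ≤ 4 * (1 - κ / 2) := by linarith
        have hr1 : 1 ≤ r := Fintype.card_pos_iff.mpr ⟨p0⟩
        calc (2 + 2 * Real.cos (L p0 * t - φ p0)) *
              ∏ p ∈ Finset.univ.erase p0, (2 + 2 * Real.cos (L p * t - φ p))
            ≤ (4 * (1 - κ / 2)) * 4 ^ (r - 1) := by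
              apply mul_le_mul h2 h1
              · exact Finset.prod_nonneg fun p _ => by linarith [(hcos t p).1]
              · linarith
          _ = 4 ^ r * (1 - κ / 2) := by
              obtain ⟨q, hq⟩ : ∃ q, r = q + 1 := ⟨r - 1, by omega⟩
              rw [hq]; simp only [Nat.add_sub_cancel, pow_succ]; ring
    have hms := mean_square_ph J a ω ψ (fun j _ j' _ h => hL j j' h) ((4 ^ r * (1 - κ / 2)) ^ k) T0
      (fun t ht => by rw [hns t]; exact hup t ht)
    have hcs : (∑ j ∈ J, |a j|) ^ 2 ≤ J.card * ∑ j ∈ J, a j ^ 2 := by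
      have := sq_sum_le_card_mul_sum_sq (s := J) (f := fun j => |a j|)
      simpa [sq_abs] using this
    have hcard : (J.card : ℝ) = ((k : ℝ) + 1) ^ r := by
      rw [hJ, Fintype.card_piFinset]
      simp [hr]
    have hsum : ∑ j ∈ J, |a j| = (2 ^ k) ^ r := by
      have h1 : ∀ j : ι → ℕ, |a j| = ∏ p, (k.choose (j p) : ℝ) := by
        intro j
        rw [ha]
        exact abs_of_nonneg (Finset.prod_nonneg fun p _ => by positivity)
      simp_rw [h1]
      rw [hJ, ← Finset.prod_univ_sum (fun _ => Finset.range (k + 1)) (fun _ m => (k.choose m : ℝ))]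
      have h2 : ∑ m ∈ Finset.range (k + 1), (k.choose m : ℝ) = 2 ^ k := by
        exact_mod_cast Nat.sum_range_choose k
      simp [h2, hr]
    rw [hsum, hcard] at hcs
    have h4 : (((2 : ℝ) ^ k) ^ r) ^ 2 = (4 ^ r) ^ k := by
      rw [← pow_mul, ← pow_mul, ← pow_mul, show (4 : ℝ) = 2 ^ 2 by norm_num, ← pow_mul]
      congr 1; ring
    rw [h4] at hcs
    have h5 : ((4 : ℝ) ^ r) ^ k ≤ ((k : ℝ) + 1) ^ r * ((4 ^ r) ^ k * (1 - κ / 2) ^ k) := by
      refine le_trans hcs ?_
      apply mul_le_mul_of_nonneg_left _ (by positivity)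
      rw [← mul_pow]; exact hms
    have h6 : (0 : ℝ) < ((4 : ℝ) ^ r) ^ k := by positivity
    have h7 : ((4 : ℝ) ^ r) ^ k * 1 ≤ ((4 : ℝ) ^ r) ^ k * (((k : ℝ) + 1) ^ r * (1 - κ / 2) ^ k) := by
      rw [mul_one]; refine le_trans h5 (le_of_eq ?_); ring
    exact le_of_mul_le_mul_left h7 h6
  have hc : |1 - κ / 2| < 1 := by rw [abs_lt]; constructor <;> linarith
  have hlim := tendsto_pow_const_mul_const_pow_of_abs_lt_one r hc
  have hlim2 := (tendsto_add_atTop_iff_nat 1).mpr hlim
  have hev := hlim2.eventually (gt_mem_nhds (show (0 : ℝ) < 1 / 2 by norm_num))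
  obtain ⟨k, hk⟩ := hev.exists
  have hk1 := key k
  push_cast at hk
  have h8 : ((k : ℝ) + 1) ^ r * (1 - κ / 2) ^ (k + 1)
      = (((k : ℝ) + 1) ^ r * (1 - κ / 2) ^ k) * (1 - κ / 2) := by ring
  rw [h8] at hk
  have h9 : (1 : ℝ) * (1 / 2) ≤ (((k : ℝ) + 1) ^ r * (1 - κ / 2) ^ k) * (1 - κ / 2) := by
    apply mul_le_mul hk1 (by linarith) (by norm_num)
    linarith
  linarith

/-- Inhomogeneous Kronecker theorem for logarithms of primes. -/
theorem kron_gen (Q : Finset ℕ) (hQ : ∀ p ∈ Q, p.Prime) (θ : ℕ → ℝ) (η : ℝ) (hη : 0 < η) (T0 : ℝ) :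
    ∃ τ : ℝ, T0 ≤ τ ∧ ∃ m : ℕ → ℤ, ∀ p ∈ Q, |τ * Real.log p - θ p - m p| ≤ η := by
  classical
  have hpi := Real.pi_pos
  set η' := min η (1 / 4) with hη'
  have hη0 : 0 < η' := lt_min hη (by norm_num)
  have hη1 : η' ≤ 1 / 4 := min_le_right _ _
  obtain ⟨t, ht, h⟩ := kron_cos_ph (ι := Q) (fun p : Q => Real.log (p : ℕ)) (log_indep Q hQ)
    (fun p : Q => 2 * Real.pi * θ p) (8 * η' ^ 2) (by positivity) (by nlinarith)
    (T0 * (2 * Real.pi))
  refine ⟨t / (2 * Real.pi), by rw [le_div_iff₀ (by positivity)]; exact ht,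
    fun p => round (t / (2 * Real.pi) * Real.log p - θ p), fun p hp => ?_⟩
  have h1 := h ⟨p, hp⟩
  simp only at h1
  set y := t / (2 * Real.pi) * Real.log p - θ p with hy
  set z := y - (round y : ℝ) with hz
  have hz1 : |z| ≤ 1 / 2 := abs_sub_round y
  have e : Real.log p * t - 2 * Real.pi * θ p = 2 * Real.pi * y := by rw [hy]; field_simp
  rw [e] at h1
  have h2 : Real.cos (2 * Real.pi * y) = Real.cos (2 * Real.pi * z) := by
    have : 2 * Real.pi * z = 2 * Real.pi * y - (round y : ℤ) * (2 * Real.pi) := by rw [hz]; ring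
    rw [this, Real.cos_sub_int_mul_two_pi]
  have h3 : |2 * Real.pi * z| ≤ Real.pi := by
    rw [abs_mul, abs_of_pos (by positivity)]; nlinarith
  have h4 := Real.cos_le_one_sub_mul_cos_sq h3
  rw [h2] at h1
  have h5 : 2 / Real.pi ^ 2 * (2 * Real.pi * z) ^ 2 = 8 * z ^ 2 := by field_simp; ring
  rw [h5] at h4
  have h6 : z ^ 2 ≤ η' ^ 2 := by linarith
  exact (abs_le_of_sq_le_sq h6 hη0.le).trans (min_le_left _ _)

end Pool.Agent.Helper8.Classify
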