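import Mathlib
import Pool.Agent.Helper8.DilationLib
import Pool.Agent.Helper8.Classify.Defs

/-!
# The conditions are necessary (module CL-N)
-/

namespace Pool.Agent.Helper8.Classify

open Finset Filter Topology Pool.Agent.Helper8.Dilation

lemma abs_prod_pm (f : ℕ → ℝ) (hf : ∀ n, f n = 1 ∨ f n = -1) (S : Finset ℕ) (g : ℕ → ℕ) :
    |∏ s ∈ S, f (g s)| = 1 := by
  rw [Finset.abs_prod]
  refine Finset.prod_eq_one fun s _ => ?_
  rcases hf (g s) with h | h <;> rw [h] <;> simp

lemma sum_shift_one (g : ℕ → ℝ) (N : ℕ) :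
    ∑ n ∈ Ioc 0 N, g (n + 1) - ∑ n ∈ Ioc 0 N, g n = g (N + 1) - g 1 := by
  induction N with
  | zero => simp
  | succ N ih =>
    rw [Finset.sum_Ioc_succ_top (by omega), Finset.sum_Ioc_succ_top (by omega)]
    linarith

/-- Two sequences of sums at distance `o(N)` have the same averages. -/
lemma avg_unique {A B : ℕ → ℝ} {a b : ℝ} (hA : Tendsto (fun N : ℕ => A N / N) atTop (𝓝 a))
    (hB : Tendsto (fun N : ℕ => B N / N) atTop (𝓝 b))
    (h : ∀ ε : ℝ, 0 < ε → ∀ᶠ N : ℕ in atTop, |A N - B N| ≤ ε * N) : a = b := by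
  have h0 : Tendsto (fun N : ℕ => A N / N - B N / N) atTop (𝓝 (a - b)) := hA.sub hB
  have h1 : Tendsto (fun N : ℕ => A N / N - B N / N) atTop (𝓝 0) := by
    rw [Metric.tendsto_atTop']
    intro ε hε
    obtain ⟨N0, hN0⟩ := eventually_atTop.mp (h (ε / 2) (by positivity))
    refine ⟨N0 + 1, fun N hN => ?_⟩
    have hN1 : (0 : ℝ) < N := by
      have : 0 < N := by omega
      exact_mod_cast this
    have h2 := hN0 N (by omega)
    rw [Real.dist_eq, sub_zero, ← sub_div, abs_div, abs_of_pos hN1, div_lt_iff₀ hN1]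
    nlinarith
  have := tendsto_nhds_unique h0 h1
  linarith

/-- N: the conditions are necessary -/
theorem necessary (C : Finset ℕ → ℝ) (f : ℕ → ℝ) (hf : AlmostLiouville f)
    (h : ∀ (q : ℕ), 1 ≤ q → ∀ (r : ℕ) (S : Finset ℕ), Tendsto (fun N : ℕ =>
      (∑ n ∈ (Ioc 0 N).filter (fun n => n ≡ r [MOD q]), ∏ s ∈ S, f (n + s)) / N) atTop
      (𝓝 (C S / q))) : DilationSystem (fun _ => -1) C := by
  classical
  obtain ⟨hpm, hdil⟩ := hf
  have h1 : ∀ S : Finset ℕ, Tendsto (fun N : ℕ => (∑ n ∈ Ioc 0 N, ∏ s ∈ S, f (n + s)) / N) atTop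
      (𝓝 (C S)) := by
    intro S
    have := h 1 le_rfl 0 S
    simpa [Nat.modEq_one, Finset.filter_true_of_mem] using this
  refine ⟨?_, ?_, ?_, ?_⟩
  · -- empty
    have h2 := h1 ∅
    have h3 : Tendsto (fun N : ℕ => (∑ n ∈ Ioc 0 N, ∏ s ∈ (∅ : Finset ℕ), f (n + s)) / (N : ℝ))
        atTop (𝓝 1) := by
      refine tendsto_const_nhds.congr' ?_
      filter_upwards [eventually_gt_atTop 0] with N hN
      have : (N : ℝ) ≠ 0 := by exact_mod_cast hN.ne'
      simp [this]
    exact tendsto_nhds_unique h2 h3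
  · -- shift
    intro S
    refine avg_unique (h1 (S.image fun s => s + 1)) (h1 S) fun ε hε => ?_
    obtain ⟨N0, hN0⟩ := exists_nat_gt (2 / ε)
    filter_upwards [eventually_ge_atTop N0] with N hN
    have h2 : ∀ n, ∏ s ∈ S.image (fun s => s + 1), f (n + s) = ∏ s ∈ S, f (n + 1 + s) := by
      intro n
      rw [Finset.prod_image (by intro a _ b _ hab; simpa using hab)]
      refine Finset.prod_congr rfl fun s _ => ?_
      congr 1; ring
    simp_rw [h2]
    rw [sum_shift_one (fun n => ∏ s ∈ S, f (n + s)) N]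
    have h3 := abs_prod_pm f hpm S (fun s => N + 1 + s)
    have h4 := abs_prod_pm f hpm S (fun s => 1 + s)
    refine (abs_sub _ _).trans ?_
    rw [h3, h4]
    have h5 : 2 / ε < N := hN0.trans_le (by exact_mod_cast hN)
    rw [div_lt_iff₀ hε] at h5
    linarith
  · -- dilate
    intro p hp S
    have hp0 : (0 : ℝ) < p := by exact_mod_cast hp.pos
    have hsub : Tendsto (fun M : ℕ => p * M) atTop atTop :=
      tendsto_id.const_mul_atTop' (r := p) hp.pos
    have h2 := (h p hp.pos 0 (S.image fun s => p * s)).comp hsub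
    have hfil : ∀ M : ℕ, (Ioc 0 (p * M)).filter (fun n => n ≡ 0 [MOD p])
        = (Ioc 0 M).image (fun m => p * m) := by
      intro M
      ext n
      simp only [Finset.mem_filter, Finset.mem_Ioc, Finset.mem_image]
      constructor
      · rintro ⟨⟨h3, h4⟩, h5⟩
        obtain ⟨m, rfl⟩ := (Nat.modEq_zero_iff_dvd).mp h5
        refine ⟨m, ⟨Nat.pos_of_mul_pos_left h3, Nat.le_of_mul_le_mul_left h4 hp.pos⟩, rfl⟩
      · rintro ⟨m, ⟨h3, h4⟩, rfl⟩
        exact ⟨⟨Nat.mul_pos hp.pos h3, Nat.mul_le_mul_left p h4⟩,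
          (Nat.modEq_zero_iff_dvd).mpr (Dvd.intro m rfl)⟩
    have h3 : Tendsto (fun M : ℕ => (∑ m ∈ Ioc 0 M, ∏ s ∈ S, f (p * (m + s))) / M) atTop
        (𝓝 (C (S.image fun s => p * s))) := by
      have h4 := h2.mul_const (p : ℝ)
      have e : C (S.image fun s => p * s) / (p : ℝ) * p = C (S.image fun s => p * s) := by
        field_simp
      rw [e] at h4
      refine h4.congr fun M => ?_
      simp only [Function.comp]
      rw [hfil, Finset.sum_image (by
        intro a _ b _ hab; exact Nat.eq_of_mul_eq_mul_left hp.pos hab)]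
      have h5 : ∀ m, ∏ s ∈ S.image (fun s => p * s), f (p * m + s) = ∏ s ∈ S, f (p * (m + s)) := by
        intro m
        rw [Finset.prod_image (by
          intro a _ b _ hab; exact Nat.eq_of_mul_eq_mul_left hp.pos hab)]
        refine Finset.prod_congr rfl fun s _ => ?_
        congr 1; ring
      simp_rw [h5]
      push_cast
      rcases Nat.eq_zero_or_pos M with hM | hM
      · subst hM; simp
      · have : (M : ℝ) ≠ 0 := by exact_mod_cast hM.ne'
        field_simp
    have h4 : Tendsto (fun M : ℕ => (∑ m ∈ Ioc 0 M, (-1 : ℝ) ^ S.card * ∏ s ∈ S, f (m + s)) / M)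
        atTop (𝓝 ((-1) ^ S.card * C S)) := by
      have := (h1 S).const_mul ((-1 : ℝ) ^ S.card)
      refine this.congr fun M => ?_
      rw [← Finset.mul_sum]; ring
    refine avg_unique h3 h4 fun ε hε => ?_
    refine DZ.avg_close ?_ ?_ ?_ ε hε
    · intro m
      exact (abs_prod_pm f hpm S (fun s => p * (m + s))).le
    · intro m
      rw [abs_mul, abs_prod_pm f hpm S (fun s => m + s), abs_pow]
      simp
    · have h5 : DZ {m | ∃ s ∈ S, m ∈ {m | m + s ∈ {n | f (p * n) ≠ - f n}}} :=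
        DZ.iUnion S (fun s => {m | m + s ∈ {n | f (p * n) ≠ - f n}})
          fun s _ => (DZ_of_densityZero (hdil p hp)).preimage_add s
      refine h5.mono ?_
      intro m hm
      simp only [Set.mem_setOf_eq] at hm ⊢
      by_contra hcon
      push Not at hcon
      apply hm
      have : ∀ s ∈ S, f (p * (m + s)) = (-1) * f (m + s) := by
        intro s hs; rw [hcon s hs]; ring
      rw [Finset.prod_congr rfl this, Finset.prod_mul_distrib, Finset.prod_const]
  · -- positivity
    intro T v hv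
    have h2 : Tendsto (fun N : ℕ => ∑ S ∈ T.powerset,
        ((∑ n ∈ Ioc 0 N, ∏ s ∈ S, f (n + s)) / N) * ∏ s ∈ S, v s) atTop
        (𝓝 (∑ S ∈ T.powerset, C S * ∏ s ∈ S, v s)) :=
      tendsto_finset_sum _ fun S _ => (h1 S).mul_const _
    refine ge_of_tendsto' h2 fun N => ?_
    have h3 : ∑ S ∈ T.powerset, ((∑ n ∈ Ioc 0 N, ∏ s ∈ S, f (n + s)) / N) * ∏ s ∈ S, v s
        = (∑ n ∈ Ioc 0 N, ∏ s ∈ T, (1 + v s * f (n + s))) / N := by
      rw [Finset.sum_div]
      have h4 : ∀ n, ∏ s ∈ T, (1 + v s * f (n + s))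
          = ∑ S ∈ T.powerset, (∏ s ∈ S, v s) * ∏ s ∈ S, f (n + s) := by
        intro n
        rw [Finset.prod_one_add]
        refine Finset.sum_congr rfl fun S _ => ?_
        rw [Finset.prod_mul_distrib]
      simp_rw [h4, Finset.sum_div]
      rw [Finset.sum_comm]
      refine Finset.sum_congr rfl fun S _ => ?_
      rw [Finset.sum_mul]
      refine Finset.sum_congr rfl fun n _ => ?_
      ring
    rw [h3]
    apply div_nonneg _ (Nat.cast_nonneg N)
    refine Finset.sum_nonneg fun n _ => Finset.prod_nonneg fun s _ => ?_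
    rcases hv s with h5 | h5 <;> rcases hpm (n + s) with h6 | h6 <;> rw [h5, h6] <;> norm_num

end Pool.Agent.Helper8.Classify
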